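import Mathlib

/-!
# SUMR: real bookkeeping for the mass lemma
-/

set_option autoImplicit false

open Real

namespace MMR

/-- pure real bookkeeping: a power saving in the count (with an exponential loss in the depth `D`) makes the sum of `g * G` over the small `g` small. -/
def SUMR_stmt : Prop := ∀ C θ C' k₀ γ₀ ε : ℝ, 0 ≤ C → θ < 1 → 0 ≤ C' → 0 < k₀ → 0 < γ₀ → 0 < ε →
  ∃ u : ℝ, 0 < u ∧ u ≤ 1 ∧ ∀ (ι : Finset ℕ) (g D G : ℕ → ℝ),
  (∀ T ∈ ι, 0 < g T ∧ 0 ≤ G T) →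
  (∀ T ∈ ι, g T ≤ 1 → G T ≤ C * (1 + Real.log (1 / g T))) →
  (∀ T ∈ ι, 1 ≤ D T → G T ≤ C * Real.exp (-D T)) →
  (∀ γ : ℝ, 0 < γ → γ ≤ γ₀ → γ ≤ 1 →
    ((ι.filter fun T => γ ≤ g T).card : ℝ) ≤ C * (1 + Real.log (1 / γ)) * γ⁻¹) →
  (∀ γ H : ℝ, 0 < γ → γ ≤ γ₀ → γ ≤ 1 → 0 ≤ H → H ≤ k₀ * Real.log (1 / γ) →
    ((ι.filter fun T => γ ≤ g T ∧ D T ≤ H).card : ℝ) ≤
      C * (1 + Real.log (1 / γ)) * γ ^ (-θ) * Real.exp (C' * H)) →
  ∑ T ∈ ι.filter (fun T => g T ≤ u), g T * G T ≤ ε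

theorem SUMR_tail (A q ε : ℝ) (hq : 0 < q) (hε : 0 < ε) : ∃ J : ℕ, ∀ s : Finset ℕ, (∀ j ∈ s, J ≤ j) →
    ∑ j ∈ s, A * (((j + 1 : ℕ) : ℝ) ^ 2 * Real.exp (-q * ((j + 1 : ℕ) : ℝ))) ≤ ε := by
  have h1 : Summable fun n : ℕ => (n : ℝ) ^ 2 * Real.exp (-q * n) :=
    Real.summable_pow_mul_exp_neg_nat_mul 2 hq
  have h2 : Summable fun j : ℕ => A * (((j + 1 : ℕ) : ℝ) ^ 2 * Real.exp (-q * ((j + 1 : ℕ) : ℝ))) :=
    ((summable_nat_add_iff 1).2 h1).mul_left A
  obtain ⟨s₀, hs₀⟩ := summable_iff_vanishing_norm.1 h2 ε hε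
  refine ⟨s₀.sup id + 1, fun s hs => ?_⟩
  have h3 : Disjoint s s₀ := by
    rw [Finset.disjoint_left]
    intro j hj hj0
    have h4 : j ≤ s₀.sup id := Finset.le_sup (f := id) hj0
    have h5 := hs j hj
    omega
  have h4 := hs₀ s h3
  exact (le_abs_self _).trans h4.le

theorem SUMR : SUMR_stmt := by
  intro C θ C' k₀ γ₀ ε hC hθ hC' hk₀ hγ₀ hε
  -- choice of κ and q
  obtain ⟨κ, hκ, hκk, hκC⟩ : ∃ κ : ℝ, 0 < κ ∧ κ ≤ k₀ ∧ C' * κ ≤ (1 - θ) / 2 := by
    refine ⟨min k₀ ((1 - θ) / 2 / (C' + 1)), ?_, min_le_left _ _, ?_⟩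
    · exact lt_min hk₀ (by have : 0 < C' + 1 := by linarith
                           have h2 : 0 < (1 - θ) / 2 := by linarith
                           positivity)
    · have h1 : 0 < C' + 1 := by linarith
      have h2 : 0 < (1 - θ) / 2 := by linarith
      calc C' * min k₀ ((1 - θ) / 2 / (C' + 1)) ≤ C' * ((1 - θ) / 2 / (C' + 1)) :=
            mul_le_mul_of_nonneg_left (min_le_right _ _) hC'
        _ ≤ (C' + 1) * ((1 - θ) / 2 / (C' + 1)) :=
            mul_le_mul_of_nonneg_right (by linarith) (by positivity)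
        _ = (1 - θ) / 2 := by field_simp
  set q : ℝ := min ((1 - θ) / 2) κ with hq_def
  have hq : 0 < q := lt_min (by linarith) hκ
  have hq1 : q ≤ (1 - θ) / 2 := min_le_left _ _
  have hq2 : q ≤ κ := min_le_right _ _
  obtain ⟨J₀, hJ₀⟩ := SUMR_tail (8 * Real.exp 1 * C ^ 2) q ε hq hε
  -- threshold
  obtain ⟨J, hJJ₀, hJκ, hJγ⟩ : ∃ J : ℕ, J₀ ≤ J ∧ 1 ≤ κ * (J : ℝ) ∧ Real.exp (-(J : ℝ)) ≤ γ₀ := by
    obtain ⟨N₁, hN₁⟩ := exists_nat_ge (1 / κ)
    obtain ⟨N₂, hN₂⟩ := exists_nat_ge (-Real.log γ₀)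
    refine ⟨max J₀ (max N₁ N₂), le_max_left _ _, ?_, ?_⟩
    · have h1 : (N₁ : ℝ) ≤ ((max J₀ (max N₁ N₂) : ℕ) : ℝ) := by
        exact_mod_cast (le_max_left N₁ N₂).trans (le_max_right _ _)
      have h2 : 1 / κ ≤ ((max J₀ (max N₁ N₂) : ℕ) : ℝ) := hN₁.trans h1
      rw [div_le_iff₀ hκ] at h2
      linarith
    · have h1 : (N₂ : ℝ) ≤ ((max J₀ (max N₁ N₂) : ℕ) : ℝ) := by
        exact_mod_cast (le_max_right N₁ N₂).trans (le_max_right _ _)
      rw [← Real.le_log_iff_exp_le hγ₀]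
      linarith
  refine ⟨Real.exp (-(J : ℝ)), Real.exp_pos _, ?_, ?_⟩
  · rw [Real.exp_le_one_iff]
    have : (0 : ℝ) ≤ J := Nat.cast_nonneg _
    linarith
  intro ι g D G hg hG1 hG2 hc1 hc2
  -- the class of T
  let cl : ℕ → ℕ := fun T => ⌊-Real.log (g T)⌋₊
  set S := ι.filter (fun T => g T ≤ Real.exp (-(J : ℝ))) with hS
  have hcl : ∀ T ∈ S, J ≤ cl T ∧ Real.exp (-((cl T : ℝ) + 1)) ≤ g T ∧ g T ≤ Real.exp (-(cl T : ℝ)) := by
    intro T hT
    obtain ⟨hT1, hT2⟩ := Finset.mem_filter.1 hT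
    have hgT := (hg T hT1).1
    have h1 : Real.log (g T) ≤ -(J : ℝ) :=
      (Real.log_le_iff_le_exp hgT).2 hT2
    have h0 : (J : ℝ) ≤ -Real.log (g T) := by linarith
    have h0' : (0 : ℝ) ≤ -Real.log (g T) := (Nat.cast_nonneg J).trans h0
    refine ⟨Nat.le_floor h0, ?_, ?_⟩
    · rw [← Real.le_log_iff_exp_le hgT]
      have h2 := Nat.lt_floor_add_one (-Real.log (g T))
      have h3 : (cl T : ℝ) = (⌊-Real.log (g T)⌋₊ : ℝ) := rfl
      rw [h3]
      linarith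
    · rw [← Real.log_le_iff_le_exp hgT]
      have h2 := Nat.floor_le h0'
      have h3 : (cl T : ℝ) = (⌊-Real.log (g T)⌋₊ : ℝ) := rfl
      rw [h3]
      linarith
  -- the bound in one class
  have key : ∀ j : ℕ, J ≤ j → ∑ T ∈ S.filter (fun T => cl T = j), g T * G T ≤
      8 * Real.exp 1 * C ^ 2 * (((j + 1 : ℕ) : ℝ) ^ 2 * Real.exp (-q * ((j + 1 : ℕ) : ℝ))) := by
    intro j hj
    have hjR : (J : ℝ) ≤ (j : ℝ) := by exact_mod_cast hj
    have hj0 : (0 : ℝ) ≤ j := Nat.cast_nonneg j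
    have hcast : ((j + 1 : ℕ) : ℝ) = (j : ℝ) + 1 := by push_cast; ring
    set γ : ℝ := Real.exp (-((j : ℝ) + 1)) with hγdef
    have hγpos : 0 < γ := Real.exp_pos _
    have hγ1 : γ ≤ 1 := by
      rw [hγdef, Real.exp_le_one_iff]; linarith
    have hγγ : γ ≤ γ₀ := by
      refine le_trans ?_ hJγ
      rw [hγdef, Real.exp_le_exp]; linarith
    have hlog : Real.log (1 / γ) = (j : ℝ) + 1 := by
      rw [one_div, Real.log_inv, hγdef, Real.log_exp]; ring
    set H : ℝ := κ * ((j : ℝ) + 1) with hHdef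
    have hH0 : 0 ≤ H := by positivity
    have hHk : H ≤ k₀ * Real.log (1 / γ) := by
      rw [hlog, hHdef]
      exact mul_le_mul_of_nonneg_right hκk (by linarith)
    have hH1 : 1 ≤ H := by
      rw [hHdef]
      calc (1 : ℝ) ≤ κ * J := hJκ
        _ ≤ κ * ((j : ℝ) + 1) := mul_le_mul_of_nonneg_left (by linarith) hκ.le
    have hcA := hc1 γ hγpos hγγ hγ1
    have hcB := hc2 γ H hγpos hγγ hγ1 hH0 hHk
    rw [hlog] at hcA hcB
    -- split the class
    set Sj := S.filter (fun T => cl T = j) with hSj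
    have hmem : ∀ T ∈ Sj, T ∈ ι ∧ γ ≤ g T ∧ g T ≤ Real.exp (-(j : ℝ)) := by
      intro T hT
      obtain ⟨hT1, hT2⟩ := Finset.mem_filter.1 hT
      obtain ⟨h1, h2, h3⟩ := hcl T hT1
      rw [hT2] at h2 h3
      exact ⟨(Finset.mem_filter.1 hT1).1, h2, h3⟩
    have hsplit : ∑ T ∈ Sj, g T * G T = ∑ T ∈ Sj.filter (fun T => D T ≤ H), g T * G T +
        ∑ T ∈ Sj.filter (fun T => ¬ D T ≤ H), g T * G T :=
      (Finset.sum_filter_add_sum_filter_not Sj _ _).symm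
    have hexp0 : 0 < Real.exp (-(j : ℝ)) := Real.exp_pos _
    -- near part
    have hnear : ∑ T ∈ Sj.filter (fun T => D T ≤ H), g T * G T ≤
        4 * Real.exp 1 * C ^ 2 * (((j : ℝ) + 1) ^ 2 * Real.exp (-q * ((j : ℝ) + 1))) := by
      have h1 : ∀ T ∈ Sj.filter (fun T => D T ≤ H), g T * G T ≤
          Real.exp (-(j : ℝ)) * (C * (1 + ((j : ℝ) + 1))) := by
        intro T hT
        obtain ⟨hT1, hT2⟩ := Finset.mem_filter.1 hT
        obtain ⟨ha, hb, hc⟩ := hmem T hT1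
        have hgT := (hg T ha).1
        have hg1 : g T ≤ 1 := hc.trans (by rw [Real.exp_le_one_iff]; linarith)
        have h2 : Real.log (1 / g T) ≤ (j : ℝ) + 1 := by
          rw [← hlog]
          exact Real.log_le_log (by positivity) (one_div_le_one_div_of_le hγpos hb)
        have h3 : G T ≤ C * (1 + ((j : ℝ) + 1)) :=
          (hG1 T ha hg1).trans (mul_le_mul_of_nonneg_left (by linarith) hC)
        exact mul_le_mul hc h3 (hg T ha).2 hexp0.le
      have h2 : ((Sj.filter (fun T => D T ≤ H)).card : ℝ) ≤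
          C * (1 + ((j : ℝ) + 1)) * γ ^ (-θ) * Real.exp (C' * H) := by
        refine le_trans ?_ hcB
        have : Sj.filter (fun T => D T ≤ H) ⊆ ι.filter (fun T => γ ≤ g T ∧ D T ≤ H) := by
          intro T hT
          obtain ⟨hT1, hT2⟩ := Finset.mem_filter.1 hT
          obtain ⟨ha, hb, _⟩ := hmem T hT1
          exact Finset.mem_filter.2 ⟨ha, hb, hT2⟩
        exact_mod_cast Finset.card_le_card this
      have h3 := Finset.sum_le_card_nsmul _ _ _ h1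
      rw [nsmul_eq_mul] at h3
      have hpos : 0 ≤ Real.exp (-(j : ℝ)) * (C * (1 + ((j : ℝ) + 1))) := by positivity
      refine h3.trans ((mul_le_mul_of_nonneg_right h2 hpos).trans ?_)
      have hγθ : γ ^ (-θ) = Real.exp (θ * ((j : ℝ) + 1)) := by
        rw [hγdef, ← Real.exp_mul]; congr 1; ring
      rw [hγθ]
      have h4 : Real.exp (θ * ((j : ℝ) + 1)) * Real.exp (C' * H) * Real.exp (-(j : ℝ)) ≤
          Real.exp 1 * Real.exp (-q * ((j : ℝ) + 1)) := by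
        rw [← Real.exp_add, ← Real.exp_add, ← Real.exp_add, Real.exp_le_exp, hHdef]
        have h5 : C' * (κ * ((j : ℝ) + 1)) ≤ (1 - θ) / 2 * ((j : ℝ) + 1) := by
          rw [← mul_assoc]
          exact mul_le_mul_of_nonneg_right hκC (by linarith)
        have h6 : q * ((j : ℝ) + 1) ≤ (1 - θ) / 2 * ((j : ℝ) + 1) :=
          mul_le_mul_of_nonneg_right hq1 (by linarith)
        nlinarith
      have h7 : (1 + ((j : ℝ) + 1)) ^ 2 ≤ 4 * ((j : ℝ) + 1) ^ 2 := by nlinarith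
      have hC2 : 0 ≤ C ^ 2 := sq_nonneg C
      calc C * (1 + ((j : ℝ) + 1)) * Real.exp (θ * ((j : ℝ) + 1)) * Real.exp (C' * H) *
            (Real.exp (-(j : ℝ)) * (C * (1 + ((j : ℝ) + 1))))
          = C ^ 2 * (1 + ((j : ℝ) + 1)) ^ 2 *
            (Real.exp (θ * ((j : ℝ) + 1)) * Real.exp (C' * H) * Real.exp (-(j : ℝ))) := by ring
        _ ≤ C ^ 2 * (4 * ((j : ℝ) + 1) ^ 2) * (Real.exp 1 * Real.exp (-q * ((j : ℝ) + 1))) := by
            refine mul_le_mul (mul_le_mul_of_nonneg_left h7 hC2) h4 (by positivity) (by positivity)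
        _ = 4 * Real.exp 1 * C ^ 2 * (((j : ℝ) + 1) ^ 2 * Real.exp (-q * ((j : ℝ) + 1))) := by ring
    -- far part
    have hfar : ∑ T ∈ Sj.filter (fun T => ¬ D T ≤ H), g T * G T ≤
        4 * Real.exp 1 * C ^ 2 * (((j : ℝ) + 1) ^ 2 * Real.exp (-q * ((j : ℝ) + 1))) := by
      have h1 : ∀ T ∈ Sj.filter (fun T => ¬ D T ≤ H), g T * G T ≤
          Real.exp (-(j : ℝ)) * (C * Real.exp (-H)) := by
        intro T hT
        obtain ⟨hT1, hT2⟩ := Finset.mem_filter.1 hT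
        obtain ⟨ha, hb, hc⟩ := hmem T hT1
        have h2 : H < D T := not_le.1 hT2
        have h3 : G T ≤ C * Real.exp (-H) :=
          (hG2 T ha (hH1.trans h2.le)).trans
            (mul_le_mul_of_nonneg_left (Real.exp_le_exp.2 (by linarith)) hC)
        exact mul_le_mul hc h3 (hg T ha).2 hexp0.le
      have h2 : ((Sj.filter (fun T => ¬ D T ≤ H)).card : ℝ) ≤
          C * (1 + ((j : ℝ) + 1)) * γ⁻¹ := by
        refine le_trans ?_ hcA
        have : Sj.filter (fun T => ¬ D T ≤ H) ⊆ ι.filter (fun T => γ ≤ g T) := by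
          intro T hT
          obtain ⟨hT1, hT2⟩ := Finset.mem_filter.1 hT
          obtain ⟨ha, hb, _⟩ := hmem T hT1
          exact Finset.mem_filter.2 ⟨ha, hb⟩
        exact_mod_cast Finset.card_le_card this
      have h3 := Finset.sum_le_card_nsmul _ _ _ h1
      rw [nsmul_eq_mul] at h3
      have hpos : 0 ≤ Real.exp (-(j : ℝ)) * (C * Real.exp (-H)) := by positivity
      refine h3.trans ((mul_le_mul_of_nonneg_right h2 hpos).trans ?_)
      have hγi : γ⁻¹ = Real.exp ((j : ℝ) + 1) := by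
        rw [hγdef, ← Real.exp_neg]; congr 1; ring
      rw [hγi]
      have h4 : Real.exp ((j : ℝ) + 1) * Real.exp (-(j : ℝ)) * Real.exp (-H) ≤
          Real.exp 1 * Real.exp (-q * ((j : ℝ) + 1)) := by
        rw [← Real.exp_add, ← Real.exp_add, ← Real.exp_add, Real.exp_le_exp, hHdef]
        have h6 : q * ((j : ℝ) + 1) ≤ κ * ((j : ℝ) + 1) :=
          mul_le_mul_of_nonneg_right hq2 (by linarith)
        nlinarith
      have h7 : (1 + ((j : ℝ) + 1)) ≤ 4 * ((j : ℝ) + 1) ^ 2 := by nlinarith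
      have hC2 : 0 ≤ C ^ 2 := sq_nonneg C
      calc C * (1 + ((j : ℝ) + 1)) * Real.exp ((j : ℝ) + 1) *
            (Real.exp (-(j : ℝ)) * (C * Real.exp (-H)))
          = C ^ 2 * (1 + ((j : ℝ) + 1)) *
            (Real.exp ((j : ℝ) + 1) * Real.exp (-(j : ℝ)) * Real.exp (-H)) := by ring
        _ ≤ C ^ 2 * (4 * ((j : ℝ) + 1) ^ 2) * (Real.exp 1 * Real.exp (-q * ((j : ℝ) + 1))) := by
            refine mul_le_mul (mul_le_mul_of_nonneg_left h7 hC2) h4 (by positivity) (by positivity)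
        _ = 4 * Real.exp 1 * C ^ 2 * (((j : ℝ) + 1) ^ 2 * Real.exp (-q * ((j : ℝ) + 1))) := by ring
    rw [hsplit, hcast]
    calc _ ≤ _ := add_le_add hnear hfar
      _ = _ := by ring
  have hmaps : ∀ T ∈ S, cl T ∈ S.image cl := fun T hT => Finset.mem_image_of_mem cl hT
  rw [← Finset.sum_fiberwise_of_maps_to hmaps]
  refine le_trans (Finset.sum_le_sum fun j hj => ?_) (hJ₀ (S.image cl) ?_)
  · obtain ⟨T, hT, rfl⟩ := Finset.mem_image.1 hj
    exact key _ (hcl T hT).1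
  · intro j hj
    obtain ⟨T, hT, rfl⟩ := Finset.mem_image.1 hj
    exact hJJ₀.trans (hcl T hT).1

/-- the form of helper94. -/
theorem SUMR94 : ∀ C A θ ε : ℝ, 0 < C → 0 < A → 0 < θ → θ ≤ 1 → 0 < ε → ∃ u : ℝ, 0 < u ∧ u < 1 ∧
    ∀ (ι : Finset ℕ) (g γ : ℕ → ℝ), (∀ j ∈ ι, 0 < g j ∧ g j ≤ 1 ∧ 0 ≤ γ j) →
    (∀ s : ℝ, 0 < s → s ≤ 1 → ((ι.filter fun j => s ≤ g j).card : ℝ) ≤ C * s⁻¹ * (1 + Real.log (1 / s))) →
    (∀ s h : ℝ, 0 < s → s ≤ 1 → 0 < h → h ≤ 1 →
      ((ι.filter fun j => s ≤ g j ∧ h ≤ γ j).card : ℝ) ≤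
        C * (1 + Real.log (1 / s)) * s ^ (θ - 1) * h ^ (-A)) →
    (∀ j ∈ ι, γ j ≤ C * (1 + Real.log (1 / g j))) →
    ∑ j ∈ ι.filter (fun j => g j ≤ u), g j * γ j ≤ ε := by
  intro C A θ ε hC hA hθ hθ1 hε
  obtain ⟨u, hu0, hu1, hu⟩ := SUMR (C + 1) (1 - θ) A 1 1 ε (by linarith) (by linarith) hA.le one_pos
    one_pos hε
  refine ⟨u / 2, by linarith, by linarith, ?_⟩
  intro ι g γ hg h1 h2 h3
  set ι' := ι.filter fun j => 0 < γ j with hι'
  have hsub : ι' ⊆ ι := Finset.filter_subset _ _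
  have hmain := hu ι' g (fun j => -Real.log (γ j)) γ ?_ ?_ ?_ ?_ ?_
  · have h4 : ∑ j ∈ ι.filter (fun j => g j ≤ u / 2), g j * γ j ≤
        ∑ j ∈ ι.filter (fun j => g j ≤ u), g j * γ j := by
      refine Finset.sum_le_sum_of_subset_of_nonneg ?_ ?_
      · intro j hj
        obtain ⟨ha, hb⟩ := Finset.mem_filter.1 hj
        exact Finset.mem_filter.2 ⟨ha, by linarith⟩
      · intro j hj _
        have ha := hg j (Finset.mem_filter.1 hj).1
        exact mul_nonneg ha.1.le ha.2.2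
    have h5 : ∑ j ∈ ι.filter (fun j => g j ≤ u), g j * γ j =
        ∑ j ∈ ι'.filter (fun j => g j ≤ u), g j * γ j := by
      symm
      refine Finset.sum_subset ?_ ?_
      · intro j hj
        obtain ⟨ha, hb⟩ := Finset.mem_filter.1 hj
        exact Finset.mem_filter.2 ⟨hsub ha, hb⟩
      · intro j hj hj'
        obtain ⟨ha, hb⟩ := Finset.mem_filter.1 hj
        have h6 : ¬ 0 < γ j := by
          intro h7
          exact hj' (Finset.mem_filter.2 ⟨Finset.mem_filter.2 ⟨ha, h7⟩, hb⟩)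
        have h8 : γ j = 0 := le_antisymm (not_lt.1 h6) (hg j ha).2.2
        rw [h8, mul_zero]
    exact h4.trans (h5.le.trans hmain)
  · intro j hj
    have ha := hg j (hsub hj)
    exact ⟨ha.1, ha.2.2⟩
  · intro j hj hj1
    have ha := hg j (hsub hj)
    have h4 : 0 ≤ Real.log (1 / g j) := by
      refine Real.log_nonneg ?_
      rw [le_div_iff₀ ha.1]
      linarith
    refine (h3 j (hsub hj)).trans (mul_le_mul_of_nonneg_right (by linarith) (by linarith))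
  · intro j hj _
    have h4 : 0 < γ j := (Finset.mem_filter.1 hj).2
    have h5 : Real.exp (- -Real.log (γ j)) = γ j := by rw [neg_neg, Real.exp_log h4]
    rw [h5]
    nlinarith
  · intro s hs0 _ hs1
    have h4 : (0 : ℝ) ≤ Real.log (1 / s) := by
      refine Real.log_nonneg ?_
      rw [le_div_iff₀ hs0]
      linarith
    have h5 : ((ι'.filter fun j => s ≤ g j).card : ℝ) ≤ ((ι.filter fun j => s ≤ g j).card : ℝ) := by
      exact_mod_cast Finset.card_le_card (Finset.filter_subset_filter _ hsub)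
    refine h5.trans ((h1 s hs0 hs1).trans ?_)
    have h6 : 0 < s⁻¹ := inv_pos.2 hs0
    have h7 : 0 ≤ (1 + Real.log (1 / s)) * s⁻¹ := by positivity
    nlinarith
  · intro s H hs0 _ hs1 hH0 _
    have h4 : (0 : ℝ) ≤ Real.log (1 / s) := by
      refine Real.log_nonneg ?_
      rw [le_div_iff₀ hs0]
      linarith
    have hh0 : 0 < Real.exp (-H) := Real.exp_pos _
    have hh1 : Real.exp (-H) ≤ 1 := by rw [Real.exp_le_one_iff]; linarith
    have h5 : ((ι'.filter fun j => s ≤ g j ∧ -Real.log (γ j) ≤ H).card : ℝ) ≤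
        ((ι.filter fun j => s ≤ g j ∧ Real.exp (-H) ≤ γ j).card : ℝ) := by
      have : ι'.filter (fun j => s ≤ g j ∧ -Real.log (γ j) ≤ H) ⊆
          ι.filter fun j => s ≤ g j ∧ Real.exp (-H) ≤ γ j := by
        intro j hj
        obtain ⟨ha, hb, hc⟩ := Finset.mem_filter.1 hj
        have h6 : 0 < γ j := (Finset.mem_filter.1 ha).2
        refine Finset.mem_filter.2 ⟨hsub ha, hb, ?_⟩
        rw [← Real.le_log_iff_exp_le h6]
        linarith
      exact_mod_cast Finset.card_le_card this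
    refine h5.trans ((h2 s _ hs0 hs1 hh0 hh1).trans ?_)
    have h6 : Real.exp (-H) ^ (-A) = Real.exp (A * H) := by
      rw [← Real.exp_mul]; congr 1; ring
    have h7 : s ^ (θ - 1) = s ^ (-(1 - θ)) := by congr 1; ring
    rw [h6, h7]
    have h8 : 0 < s ^ (-(1 - θ)) := Real.rpow_pos_of_pos hs0 _
    have h9 : 0 ≤ (1 + Real.log (1 / s)) * s ^ (-(1 - θ)) * Real.exp (A * H) := by positivity
    nlinarith

end MMR
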